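import Mathlib

/-!
# Randomized linear decision trees for integer 3SUM: definitions
-/

set_option autoImplicit false

namespace Pool.Agent.Q128.LDT

/-- A test: the sign of `a * x i + b * x j + c * x k + e` for three entries of the list `x`. -/
structure Tst (n : ℕ) where
  /-- first position -/
  i : Fin n
  /-- second position -/
  j : Fin n
  /-- third position -/
  k : Fin n
  /-- first coefficient -/
  a : ℤ
  /-- second coefficient -/
  b : ℤ
  /-- third coefficient -/
  c : ℤ
  /-- constant term -/
  e : ℤ

/-- The value of the linear form. -/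
def Tst.val {n : ℕ} (τ : Tst n) (x : Fin n → ℤ) : ℤ :=
  τ.a * x τ.i + τ.b * x τ.j + τ.c * x τ.k + τ.e

/-- The coefficients are at most `L` and the constant term is smaller than `Q`, in absolute
value. -/
def Tst.Small {n : ℕ} (L Q : ℕ) (τ : Tst n) : Prop :=
  |τ.a| ≤ L ∧ |τ.b| ≤ L ∧ |τ.c| ≤ L ∧ |τ.e| < Q

/-- Decision trees: the three subtrees of an inner node are for the three signs of the value. -/
inductive DT (n : ℕ) : Type
  | ans (r : Bool) : DT n
  | node (τ : Tst n) (neg zer pos : DT n) : DT n

/-- The answer for the list `x`. -/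
def DT.run {n : ℕ} : DT n → (Fin n → ℤ) → Bool
  | DT.ans r, _ => r
  | DT.node τ u v w, x =>
      if τ.val x < 0 then u.run x else if τ.val x = 0 then v.run x else w.run x

/-- The number of tests made for the list `x`. -/
def DT.cost {n : ℕ} : DT n → (Fin n → ℤ) → ℕ
  | DT.ans _, _ => 0
  | DT.node τ u v w, x =>
      1 + if τ.val x < 0 then u.cost x else if τ.val x = 0 then v.cost x else w.cost x

/-- All tests are small. -/
def DT.Small {n : ℕ} (L Q : ℕ) : DT n → Prop
  | DT.ans _ => True
  | DT.node τ u v w => τ.Small L Q ∧ u.Small L Q ∧ v.Small L Q ∧ w.Small L Q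

/-- `x` is a list of pairwise distinct integers of absolute value at most `R`. -/
def Inst {n : ℕ} (R : ℕ) (x : Fin n → ℤ) : Prop :=
  Function.Injective x ∧ ∀ l, |x l| ≤ R

/-- Three different entries have the sum zero. -/
def Yes {n : ℕ} (x : Fin n → ℤ) : Prop :=
  ∃ i j k, i ≠ j ∧ i ≠ k ∧ j ≠ k ∧ x i + x j + x k = 0

/-- The high digits: all entries divided by `H`, rounded down. -/
def hi {n : ℕ} (H : ℕ) (x : Fin n → ℤ) : Fin n → ℤ := fun l => x l / H

/-- The low digits: the residues of all entries modulo `Q`. -/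
def lo {n : ℕ} (Q : ℕ) (x : Fin n → ℤ) : Fin n → ℤ := fun l => x l % Q

end Pool.Agent.Q128.LDT
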