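import Mathlib
import Pool.Agent.Q128.LDT.Defs

/-!
# Randomized linear decision trees for integer 3SUM: the family of lists
-/

set_option autoImplicit false

namespace Pool.Agent.Q128.LDT

open Finset

/-- Integers with small digits in base `K`. -/
theorem enc_zero (K B : ℤ) (hK : B < K) : ∀ (d : ℕ) (w : Fin d → ℤ) (m : ℤ),
    (∀ e, |w e| ≤ B) → ∑ e, w e * K ^ (e : ℕ) + m * K ^ d = 0 → (∀ e, w e = 0) ∧ m = 0 := by
  intro d
  induction d with
  | zero =>
    intro w m _ h
    simp only [Finset.univ_eq_empty, Finset.sum_empty, pow_zero, mul_one, zero_add] at h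
    exact ⟨fun e => e.elim0, h⟩
  | succ d ih =>
    intro w m hw h
    rw [Fin.sum_univ_succ] at h
    have hB : 0 ≤ B := (abs_nonneg _).trans (hw 0)
    have hKpos : 0 < K := by omega
    have h1 : w 0 + K * (∑ e : Fin d, w e.succ * K ^ (e : ℕ) + m * K ^ d) = 0 := by
      rw [← h, mul_add, Finset.mul_sum]
      simp only [Fin.val_zero, pow_zero, mul_one, Fin.val_succ, pow_succ]
      rw [add_assoc]
      congr 1
      congr 1
      · refine Finset.sum_congr rfl fun e _ => ?_
        ring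
      · ring
    have h2 : w 0 = 0 := by
      have hdvd : K ∣ w 0 := ⟨-(∑ e : Fin d, w e.succ * K ^ (e : ℕ) + m * K ^ d), by linarith⟩
      exact Int.eq_zero_of_abs_lt_dvd hdvd (lt_of_le_of_lt (hw 0) hK)
    have h3 : ∑ e : Fin d, w e.succ * K ^ (e : ℕ) + m * K ^ d = 0 := by
      rw [h2, zero_add] at h1
      rcases mul_eq_zero.mp h1 with h4 | h4
      · omega
      · exact h4
    obtain ⟨h4, h5⟩ := ih (fun e => w e.succ) m (fun e => hw _) h3
    refine ⟨fun e => ?_, h5⟩
    refine Fin.cases h2 (fun e => h4 e) e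

/-- Labels of the entries: a class and a point of the grid. -/
abbrev Lab (d : ℕ) : Type := Fin 3 × (Fin d → ℕ)

section

variable {d : ℕ}

/-- The sign of the digits of a class. -/
def sg : Fin 3 → ℤ := ![1, 1, -1]

/-- First class digit. -/
def s1 : Fin 3 → ℤ := ![1, 0, -1]

/-- Second class digit. -/
def s2 : Fin 3 → ℤ := ![0, 1, -1]

/-- The base number of a label. -/
def Y (K K' : ℤ) (l : Lab d) : ℤ :=
  ∑ e, (sg l.1 * (l.2 e : ℤ)) * K ^ (e : ℕ) + (s1 l.1 + K' * s2 l.1) * K ^ d

/-- The square of the distance. -/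
def sq (u : Fin d → ℕ) (v : Fin d → ℤ) : ℤ := ∑ e, ((u e : ℤ) - v e) ^ 2

/-- The perturbation. -/
def P (cc : Fin 3 → Fin d → ℤ) (δ : ℤ) (l : Lab d) : ℤ :=
  sq l.2 (cc l.1) + (if l.1 = 2 then δ else 0)

/-- Class total. -/
def tot (i j k : Lab d) (a b c : ℤ) (X : Fin 3) : ℤ :=
  (if i.1 = X then a else 0) + (if j.1 = X then b else 0) + (if k.1 = X then c else 0)

/-- Class moment. -/
def mom (i j k : Lab d) (a b c : ℤ) (X : Fin 3) (e : Fin d) : ℤ :=
  (if i.1 = X then a * (i.2 e : ℤ) else 0) + (if j.1 = X then b * (j.2 e : ℤ) else 0) +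
    (if k.1 = X then c * (k.2 e : ℤ) else 0)

theorem base_zero {K K' : ℤ} {L S : ℕ} (hK : (3 * L * S : ℤ) < K) (hK' : (3 * L : ℤ) < K')
    {i j k : Lab d} (hi : ∀ e, i.2 e ≤ S) (hj : ∀ e, j.2 e ≤ S) (hk : ∀ e, k.2 e ≤ S)
    {a b c : ℤ} (ha : |a| ≤ L) (hb : |b| ≤ L) (hc : |c| ≤ L)
    (h : a * Y K K' i + b * Y K K' j + c * Y K K' k = 0) :
    tot i j k a b c 0 = tot i j k a b c 2 ∧ tot i j k a b c 1 = tot i j k a b c 2 ∧
    ∀ e, mom i j k a b c 0 e + mom i j k a b c 1 e = mom i j k a b c 2 e := by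
  have h1 : ∑ e, (a * (sg i.1 * (i.2 e : ℤ)) + b * (sg j.1 * (j.2 e : ℤ)) +
      c * (sg k.1 * (k.2 e : ℤ))) * K ^ (e : ℕ) +
      (a * (s1 i.1 + K' * s2 i.1) + b * (s1 j.1 + K' * s2 j.1) +
        c * (s1 k.1 + K' * s2 k.1)) * K ^ d = 0 := by
    rw [← h]
    unfold Y
    simp only [add_mul, Finset.sum_add_distrib, mul_add, Finset.mul_sum]
    simp only [mul_assoc]
    ring
  have hsg : ∀ X : Fin 3, |sg X| ≤ 1 := by
    intro X
    fin_cases X <;> simp [sg]
  have hterm : ∀ (a : ℤ) (l : Lab d) (e : Fin d), |a| ≤ L → l.2 e ≤ S →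
      |a * (sg l.1 * (l.2 e : ℤ))| ≤ L * S := by
    intro a l e ha hl
    rw [abs_mul, abs_mul, Nat.abs_cast]
    have hl' : (l.2 e : ℤ) ≤ S := by exact_mod_cast hl
    have h2 : |sg l.1| * (l.2 e : ℤ) ≤ 1 * S :=
      mul_le_mul (hsg _) hl' (by positivity) (by norm_num)
    calc |a| * (|sg l.1| * (l.2 e : ℤ)) ≤ L * (1 * S) :=
          mul_le_mul ha h2 (by positivity) (by positivity)
      _ = L * S := by ring
  obtain ⟨h2, h3⟩ := enc_zero K (3 * L * S) hK d _ _ (fun e => by
    have e1 := hterm a i e ha (hi e)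
    have e2 := hterm b j e hb (hj e)
    have e3 := hterm c k e hc (hk e)
    have e4 := abs_add_le (a * (sg i.1 * (i.2 e : ℤ)) + b * (sg j.1 * (j.2 e : ℤ)))
      (c * (sg k.1 * (k.2 e : ℤ)))
    have e5 := abs_add_le (a * (sg i.1 * (i.2 e : ℤ))) (b * (sg j.1 * (j.2 e : ℤ)))
    linarith) h1
  -- the class digits
  have h4 : (a * s1 i.1 + b * s1 j.1 + c * s1 k.1) * K' ^ 0 +
      (a * s2 i.1 + b * s2 j.1 + c * s2 k.1) * K' ^ 1 = 0 := by
    rw [← h3]
    ring
  have hs1 : ∀ X : Fin 3, |s1 X| ≤ 1 := by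
    intro X
    fin_cases X <;> simp [s1]
  have hterm1 : ∀ (a : ℤ) (l : Lab d), |a| ≤ L → |a * s1 l.1| ≤ L := by
    intro a l ha
    rw [abs_mul]
    calc |a| * |s1 l.1| ≤ L * 1 := mul_le_mul ha (hs1 _) (abs_nonneg _) (by positivity)
      _ = L := mul_one _
  obtain ⟨h5, h6⟩ := enc_zero K' (3 * L) hK' 1
    (fun _ => a * s1 i.1 + b * s1 j.1 + c * s1 k.1) (a * s2 i.1 + b * s2 j.1 + c * s2 k.1)
    (fun e => by
      have e1 := hterm1 a i ha
      have e2 := hterm1 b j hb
      have e3 := hterm1 c k hc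
      have e4 := abs_add_le (a * s1 i.1 + b * s1 j.1) (c * s1 k.1)
      have e5 := abs_add_le (a * s1 i.1) (b * s1 j.1)
      linarith) (by simpa using h4)
  have h5' := h5 0
  clear h hK hK' ha hb hc h1 h3 h4 h5 hterm hterm1 hs1 hsg
  obtain ⟨ci, ui⟩ := i
  obtain ⟨cj, uj⟩ := j
  obtain ⟨ck, uk⟩ := k
  simp only [tot, mom] at *
  fin_cases ci <;> fin_cases cj <;> fin_cases ck <;>
    simp [sg, s1, s2] at h2 h5' h6 ⊢ <;>
    first
    | exact ⟨by linarith, by linarith, fun e => by have := h2 e; linarith⟩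
    | exact ⟨by linarith, fun e => by have := h2 e; linarith⟩
    | exact fun e => by have := h2 e; linarith

theorem mom_zero {i j k : Lab d} {a b c : ℤ} (h : ∀ X, tot i j k a b c X = 0)
    (h3 : ∀ e, mom i j k a b c 0 e + mom i j k a b c 1 e = mom i j k a b c 2 e) :
    ∀ X e, mom i j k a b c X e = 0 := by
  have h0 := h 0
  have h1 := h 1
  have h2 := h 2
  clear h
  intro X e
  have h3' := h3 e
  clear h3
  obtain ⟨ci, ui⟩ := i
  obtain ⟨cj, uj⟩ := j
  obtain ⟨ck, uk⟩ := k
  simp only [tot, mom] at *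
  fin_cases ci <;> fin_cases cj <;> fin_cases ck <;>
    simp at h0 h1 h2 h3' <;> (try subst h0) <;> (try subst h1) <;> (try subst h2) <;>
    (try simp at h3') <;> fin_cases X <;> simp <;> linarith

theorem comb_indep {i j k : Lab d} {a b c : ℤ} (h : ∀ X, tot i j k a b c X = 0)
    (hm : ∀ X e, mom i j k a b c X e = 0) (cc : Fin 3 → Fin d → ℤ) (δ : ℤ) :
    a * P cc δ i + b * P cc δ j + c * P cc δ k =
      ∑ e, (a * (i.2 e : ℤ) ^ 2 + b * (j.2 e : ℤ) ^ 2 + c * (k.2 e : ℤ) ^ 2) := by
  have hδ : a * (if i.1 = 2 then δ else 0) + b * (if j.1 = 2 then δ else 0) +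
      c * (if k.1 = 2 then δ else 0) = 0 := by
    have := h 2
    unfold tot at this
    calc a * (if i.1 = 2 then δ else 0) + b * (if j.1 = 2 then δ else 0) +
          c * (if k.1 = 2 then δ else 0)
        = ((if i.1 = 2 then a else 0) + (if j.1 = 2 then b else 0) +
          (if k.1 = 2 then c else 0)) * δ := by
            split_ifs <;> ring
      _ = 0 := by rw [this, zero_mul]
  have hterm : ∀ e, a * ((i.2 e : ℤ) - cc i.1 e) ^ 2 + b * ((j.2 e : ℤ) - cc j.1 e) ^ 2 +
      c * ((k.2 e : ℤ) - cc k.1 e) ^ 2 =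
      a * (i.2 e : ℤ) ^ 2 + b * (j.2 e : ℤ) ^ 2 + c * (k.2 e : ℤ) ^ 2 := by
    intro e
    have e1 : ∀ (a : ℤ) (l : Lab d), a * cc l.1 e ^ 2 =
        ∑ X, (if l.1 = X then a else 0) * cc X e ^ 2 := by
      intro a l
      simp [ite_mul]
    have e2 : ∀ (a : ℤ) (l : Lab d), a * (l.2 e : ℤ) * cc l.1 e =
        ∑ X, (if l.1 = X then a * (l.2 e : ℤ) else 0) * cc X e := by
      intro a l
      simp [ite_mul]
    have e3 : a * cc i.1 e ^ 2 + b * cc j.1 e ^ 2 + c * cc k.1 e ^ 2 = 0 := by
      rw [e1 a i, e1 b j, e1 c k, ← Finset.sum_add_distrib, ← Finset.sum_add_distrib]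
      refine Finset.sum_eq_zero fun X _ => ?_
      have := h X
      unfold tot at this
      rw [← add_mul, ← add_mul, this, zero_mul]
    have e4 : a * (i.2 e : ℤ) * cc i.1 e + b * (j.2 e : ℤ) * cc j.1 e +
        c * (k.2 e : ℤ) * cc k.1 e = 0 := by
      rw [e2 a i, e2 b j, e2 c k, ← Finset.sum_add_distrib, ← Finset.sum_add_distrib]
      refine Finset.sum_eq_zero fun X _ => ?_
      have := hm X e
      unfold mom at this
      rw [← add_mul, ← add_mul, this, zero_mul]
    linear_combination e3 - 2 * e4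
  rw [← Finset.sum_congr rfl fun e _ => hterm e]
  unfold P sq
  rw [Finset.sum_add_distrib, Finset.sum_add_distrib, ← Finset.mul_sum, ← Finset.mul_sum,
    ← Finset.mul_sum]
  linear_combination hδ

/-- The label of the entry of the first class. -/
def lA (i0 : Fin d → ℕ) : Lab d := (0, i0)

/-- The label of the entry of the second class. -/
def lB (j0 : Fin d → ℕ) : Lab d := (1, j0)

/-- The label of the entry of the third class. -/
def lC (i0 j0 : Fin d → ℕ) : Lab d := (2, i0 + j0)

/-- The centres. -/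
def cen (i0 j0 : Fin d → ℕ) : Fin 3 → Fin d → ℤ :=
  ![fun e => (i0 e : ℤ), fun e => (j0 e : ℤ), fun e => (i0 e : ℤ) + j0 e]

theorem sq_nonneg' (u : Fin d → ℕ) (v : Fin d → ℤ) : 0 ≤ sq u v :=
  Finset.sum_nonneg fun _ _ => sq_nonneg _

theorem eq_of_sq {u : Fin d → ℕ} {v : Fin d → ℤ} (h : sq u v = 0) : ∀ e, (u e : ℤ) = v e := by
  intro e
  have h1 := (Finset.sum_eq_zero_iff_of_nonneg fun e _ => sq_nonneg _).mp h e (mem_univ e)
  have h2 := pow_eq_zero_iff (two_ne_zero) |>.mp h1
  linarith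

theorem eq_of_sum {uA uB uC i0 j0 : Fin d → ℕ}
    (h : sq uA (cen i0 j0 0) + sq uB (cen i0 j0 1) + sq uC (cen i0 j0 2) = 0) :
    uA = i0 ∧ uB = j0 ∧ uC = i0 + j0 := by
  have h1 := sq_nonneg' uA (cen i0 j0 0)
  have h2 := sq_nonneg' uB (cen i0 j0 1)
  have h3 := sq_nonneg' uC (cen i0 j0 2)
  have e1 : sq uA (cen i0 j0 0) = 0 := by linarith
  have e2 : sq uB (cen i0 j0 1) = 0 := by linarith
  have e3 : sq uC (cen i0 j0 2) = 0 := by linarith
  refine ⟨funext fun e => ?_, funext fun e => ?_, funext fun e => ?_⟩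
  · have := eq_of_sq e1 e
    simp [cen] at this
    exact this
  · have := eq_of_sq e2 e
    simp [cen] at this
    exact this
  · have := eq_of_sq e3 e
    simp [cen] at this
    rw [Pi.add_apply]
    exact_mod_cast this

theorem sign_pert {i j k : Lab d} {a b c : ℤ}
    (h0 : tot i j k a b c 0 = tot i j k a b c 2) (h1 : tot i j k a b c 1 = tot i j k a b c 2)
    (h3 : ∀ e, mom i j k a b c 0 e + mom i j k a b c 1 e = mom i j k a b c 2 e)
    (i0 j0 : Fin d → ℕ) (hd : ({i, j, k} : Finset (Lab d)) ≠ {lA i0, lB j0, lC i0 j0}) :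
    (a * P (cen i0 j0) 0 i + b * P (cen i0 j0) 0 j + c * P (cen i0 j0) 0 k =
      a * P 0 1 i + b * P 0 1 j + c * P 0 1 k) ∨
    (0 < a * P (cen i0 j0) 0 i + b * P (cen i0 j0) 0 j + c * P (cen i0 j0) 0 k ∧
      0 < a * P 0 1 i + b * P 0 1 j + c * P 0 1 k) ∨
    (a * P (cen i0 j0) 0 i + b * P (cen i0 j0) 0 j + c * P (cen i0 j0) 0 k < 0 ∧
      a * P 0 1 i + b * P 0 1 j + c * P 0 1 k < 0) := by
  by_cases hκ : tot i j k a b c 2 = 0
  · left
    have ht : ∀ X, tot i j k a b c X = 0 := by
      intro X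
      fin_cases X
      · exact h0.trans hκ
      · exact h1.trans hκ
      · exact hκ
    have hm := mom_zero ht h3
    rw [comb_indep ht hm, comb_indep ht hm]
  · right
    have hpos : ∀ uA uB uC : Fin d → ℕ, (uA = i0 ∧ uB = j0 ∧ uC = i0 + j0 → False) →
        0 < sq uA (cen i0 j0 0) + sq uB (cen i0 j0 1) + sq uC (cen i0 j0 2) := by
      intro uA uB uC hne
      have e1 := sq_nonneg' uA (cen i0 j0 0)
      have e2 := sq_nonneg' uB (cen i0 j0 1)
      have e3 := sq_nonneg' uC (cen i0 j0 2)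
      rcases eq_or_lt_of_le (add_nonneg (add_nonneg e1 e2) e3) with h | h
      · exact absurd (eq_of_sum h.symm) hne
      · exact h
    have hpos0 : ∀ uA uB uC : Fin d → ℕ,
        0 < sq uA 0 + sq uB 0 + (sq uC 0 + 1) := by
      intro uA uB uC
      have e1 := sq_nonneg' uA 0
      have e2 := sq_nonneg' uB 0
      have e3 := sq_nonneg' uC 0
      linarith
    have hfin : ∀ (κ : ℤ) (uA uB uC : Fin d → ℕ), κ ≠ 0 →
        (uA = i0 ∧ uB = j0 ∧ uC = i0 + j0 → False) →
        (0 < κ * (sq uA (cen i0 j0 0) + sq uB (cen i0 j0 1) + sq uC (cen i0 j0 2)) ∧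
          0 < κ * (sq uA 0 + sq uB 0 + (sq uC 0 + 1))) ∨
        (κ * (sq uA (cen i0 j0 0) + sq uB (cen i0 j0 1) + sq uC (cen i0 j0 2)) < 0 ∧
          κ * (sq uA 0 + sq uB 0 + (sq uC 0 + 1)) < 0) := by
      intro κ uA uB uC hκ hne
      have hp := hpos uA uB uC hne
      have hq := hpos0 uA uB uC
      rcases lt_or_gt_of_ne hκ with h | h
      · right
        exact ⟨mul_neg_of_neg_of_pos h hp, mul_neg_of_neg_of_pos h hq⟩
      · left
        exact ⟨mul_pos h hp, mul_pos h hq⟩
    clear h3 hpos hpos0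
    obtain ⟨ci, ui⟩ := i
    obtain ⟨cj, uj⟩ := j
    obtain ⟨ck, uk⟩ := k
    simp only [tot, P, lA, lB, lC] at *
    fin_cases ci <;> fin_cases cj <;> fin_cases ck <;>
      simp at h0 h1 hκ hd ⊢ <;>
      first
      | (exfalso; omega)
      | (have h := hfin c ui uj uk (by omega) (by
          rintro ⟨rfl, rfl, rfl⟩; apply hd; ext x; simp; try tauto)
         have e1 : a = c := by omega
         have e2 : b = c := by omega
         subst e1
         subst e2
         rcases h with ⟨h, h'⟩ | ⟨h, h'⟩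
         · left; constructor <;> linarith
         · right; constructor <;> linarith)
      | (have h := hfin c ui uk uj (by omega) (by
          rintro ⟨rfl, rfl, rfl⟩; apply hd; ext x; simp; try tauto)
         have e1 : a = c := by omega
         have e2 : b = c := by omega
         subst e1
         subst e2
         rcases h with ⟨h, h'⟩ | ⟨h, h'⟩
         · left; constructor <;> linarith
         · right; constructor <;> linarith)
      | (have h := hfin c uj ui uk (by omega) (by
          rintro ⟨rfl, rfl, rfl⟩; apply hd; ext x; simp; try tauto)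
         have e1 : a = c := by omega
         have e2 : b = c := by omega
         subst e1
         subst e2
         rcases h with ⟨h, h'⟩ | ⟨h, h'⟩
         · left; constructor <;> linarith
         · right; constructor <;> linarith)
      | (have h := hfin c uj uk ui (by omega) (by
          rintro ⟨rfl, rfl, rfl⟩; apply hd; ext x; simp; try tauto)
         have e1 : a = c := by omega
         have e2 : b = c := by omega
         subst e1
         subst e2
         rcases h with ⟨h, h'⟩ | ⟨h, h'⟩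
         · left; constructor <;> linarith
         · right; constructor <;> linarith)
      | (have h := hfin c uk ui uj (by omega) (by
          rintro ⟨rfl, rfl, rfl⟩; apply hd; ext x; simp; try tauto)
         have e1 : a = c := by omega
         have e2 : b = c := by omega
         subst e1
         subst e2
         rcases h with ⟨h, h'⟩ | ⟨h, h'⟩
         · left; constructor <;> linarith
         · right; constructor <;> linarith)
      | (have h := hfin c uk uj ui (by omega) (by
          rintro ⟨rfl, rfl, rfl⟩; apply hd; ext x; simp; try tauto)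
         have e1 : a = c := by omega
         have e2 : b = c := by omega
         subst e1
         subst e2
         rcases h with ⟨h, h'⟩ | ⟨h, h'⟩
         · left; constructor <;> linarith
         · right; constructor <;> linarith)

end

end Pool.Agent.Q128.LDT
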