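import Mathlib
import Pool.Agent.Q128.LDT.Core

/-!
# Randomized linear decision trees for integer 3SUM: the lower bound
-/

set_option autoImplicit false

namespace Pool.Agent.Q128.LDT

open Finset

/-- Two integers have the same sign. -/
def SameSign (p q : ℤ) : Prop := (p < 0 ↔ q < 0) ∧ (p = 0 ↔ q = 0)

section Trees

variable {n : ℕ}

open Classical in
/-- Some test with the property `D` is made for the list `x`. -/
def DT.sees : DT n → (Fin n → ℤ) → (Tst n → Prop) → Prop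
  | DT.ans _, _, _ => False
  | DT.node τ u v w, x, D =>
      D τ ∨ if τ.val x < 0 then u.sees x D else if τ.val x = 0 then v.sees x D else w.sees x D

theorem run_eq {L Q : ℕ} {x x' : Fin n → ℤ} {D : Tst n → Prop}
    (h : ∀ τ : Tst n, τ.Small L Q → ¬ D τ → SameSign (τ.val x') (τ.val x)) :
    ∀ T : DT n, T.Small L Q → ¬ T.sees x D → T.run x' = T.run x := by
  intro T
  induction T with
  | ans r => intro _ _; rfl
  | node τ u v w hu hv hw =>
    intro hT hs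
    obtain ⟨hτ, hTu, hTv, hTw⟩ := hT
    rw [DT.sees, not_or] at hs
    obtain ⟨hs1, hs2⟩ := hs
    obtain ⟨h1, h2⟩ := h τ hτ hs1
    rw [DT.run, DT.run]
    by_cases h3 : τ.val x < 0
    · rw [if_pos h3, if_pos (h1.mpr h3)]
      rw [if_pos h3] at hs2
      exact hu hTu hs2
    · rw [if_neg h3, if_neg (fun h => h3 (h1.mp h))]
      rw [if_neg h3] at hs2
      by_cases h4 : τ.val x = 0
      · rw [if_pos h4, if_pos (h2.mpr h4)]
        rw [if_pos h4] at hs2
        exact hv hTv hs2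
      · rw [if_neg h4, if_neg (fun h => h4 (h2.mp h))]
        rw [if_neg h4] at hs2
        exact hw hTw hs2

open Classical in
theorem count_sees {I : Type} [Fintype I] (D : I → Tst n → Prop)
    (hD : ∀ τ t t', D t τ → D t' τ → t = t') (x : Fin n → ℤ) :
    ∀ T : DT n, (univ.filter fun t => T.sees x (D t)).card ≤ T.cost x := by
  intro T
  induction T with
  | ans r =>
    rw [DT.cost]
    simp [DT.sees]
  | node τ u v w hu hv hw =>
    have h1 : (univ.filter fun t => D t τ).card ≤ 1 := by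
      rw [Finset.card_le_one]
      intro t ht t' ht'
      rw [mem_filter] at ht ht'
      exact hD τ t t' ht.2 ht'.2
    have key : ∀ T' : DT n, (univ.filter fun t => D t τ ∨ T'.sees x (D t)).card ≤
        1 + (univ.filter fun t => T'.sees x (D t)).card := by
      intro T'
      rw [Finset.filter_or]
      exact (Finset.card_union_le _ _).trans (by omega)
    rw [DT.cost]
    simp only [DT.sees]
    by_cases h3 : τ.val x < 0
    · simp only [if_pos h3]
      exact (key u).trans (by omega)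
    · simp only [if_neg h3]
      by_cases h4 : τ.val x = 0
      · simp only [if_pos h4]
        exact (key v).trans (by omega)
      · simp only [if_neg h4]
        exact (key w).trans (by omega)

end Trees

section Family

variable {d : ℕ}

/-- The entry with the label `l`. -/
def X (K K' : ℤ) (H Q : ℕ) (cc : Fin 3 → Fin d → ℤ) (δ : ℤ) (l : Lab d) : ℤ :=
  H * Y K K' l + Q * P cc δ l

theorem P_nonneg {cc : Fin 3 → Fin d → ℤ} {δ : ℤ} (hδ : 0 ≤ δ) (l : Lab d) : 0 ≤ P cc δ l := by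
  unfold P
  have := sq_nonneg' l.2 (cc l.1)
  split_ifs <;> linarith

theorem P_le {S : ℕ} {cc : Fin 3 → Fin d → ℤ} {δ : ℤ} (hδ : δ ≤ 1)
    (hcc : ∀ X e, 0 ≤ cc X e ∧ cc X e ≤ S) {l : Lab d} (hl : ∀ e, l.2 e ≤ S) :
    P cc δ l ≤ d * S ^ 2 + 1 := by
  unfold P
  have h1 : sq l.2 (cc l.1) ≤ d * S ^ 2 := by
    unfold sq
    calc ∑ e, ((l.2 e : ℤ) - cc l.1 e) ^ 2 ≤ ∑ e : Fin d, (S : ℤ) ^ 2 := by
          refine Finset.sum_le_sum fun e _ => ?_
          obtain ⟨h2, h3⟩ := hcc l.1 e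
          have h4 : (l.2 e : ℤ) ≤ S := by exact_mod_cast hl e
          have h5 : (0 : ℤ) ≤ l.2 e := by positivity
          apply sq_le_sq'
          · linarith
          · linarith
      _ = d * S ^ 2 := by simp
  split_ifs <;> linarith

theorem cen_bd {S : ℕ} {i0 j0 : Fin d → ℕ} (h : ∀ e, i0 e + j0 e ≤ S) :
    ∀ X e, 0 ≤ cen i0 j0 X e ∧ cen i0 j0 X e ≤ S := by
  intro X e
  have h1 : (i0 e : ℤ) + j0 e ≤ S := by exact_mod_cast h e
  have h2 : (0 : ℤ) ≤ i0 e := by positivity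
  have h3 : (0 : ℤ) ≤ j0 e := by positivity
  have h' := h e
  fin_cases X <;> simp [cen] <;> omega

theorem zero_bd {S : ℕ} : ∀ (X : Fin 3) (e : Fin d),
    0 ≤ (0 : Fin 3 → Fin d → ℤ) X e ∧ (0 : Fin 3 → Fin d → ℤ) X e ≤ S := by
  intro X e
  simp

theorem abs_comb {L M : ℕ} {a b c p q r : ℤ} (ha : |a| ≤ L) (hb : |b| ≤ L) (hc : |c| ≤ L)
    (hp : 0 ≤ p) (hp' : p ≤ M) (hq : 0 ≤ q) (hq' : q ≤ M) (hr : 0 ≤ r) (hr' : r ≤ M) :
    |a * p + b * q + c * r| ≤ 3 * L * M := by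
  have key : ∀ a p : ℤ, |a| ≤ L → 0 ≤ p → p ≤ M → |a * p| ≤ L * M := by
    intro a p ha hp hp'
    rw [abs_mul, abs_of_nonneg hp]
    exact mul_le_mul ha hp' hp (by positivity)
  have e1 := key a p ha hp hp'
  have e2 := key b q hb hq hq'
  have e3 := key c r hc hr hr'
  have e4 := abs_add_le (a * p + b * q) (c * r)
  have e5 := abs_add_le (a * p) (b * q)
  linarith

theorem same_of_base {H : ℕ} {B r r' : ℤ} (hB : B ≠ 0) (hr : |r| < H) (hr' : |r'| < H) :
    SameSign (H * B + r) (H * B + r') := by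
  rw [abs_lt] at hr hr'
  have hH : (0 : ℤ) < H := by linarith [hr.1, hr.2]
  rcases lt_or_gt_of_ne hB with h | h
  · have h1 : (H : ℤ) * B ≤ -H := by nlinarith
    refine ⟨⟨fun _ => by linarith, fun _ => by linarith⟩, ⟨fun h => ?_, fun h => ?_⟩⟩ <;>
      (exfalso; linarith)
  · have h1 : (H : ℤ) ≤ H * B := by nlinarith
    refine ⟨⟨fun _ => by exfalso; linarith, fun _ => by exfalso; linarith⟩,
      ⟨fun h => ?_, fun h => ?_⟩⟩ <;> (exfalso; linarith)

theorem sign_inv {K K' : ℤ} {L S H Q : ℕ} (hK : (3 * L * S : ℤ) < K) (hK' : (3 * L : ℤ) < K')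
    (hQ : 1 ≤ Q) (hH : (3 * L * (d * S ^ 2 + 1) + 1) * Q ≤ H)
    {i j k : Lab d} (hi : ∀ e, i.2 e ≤ S) (hj : ∀ e, j.2 e ≤ S) (hk : ∀ e, k.2 e ≤ S)
    {a b c e : ℤ} (ha : |a| ≤ L) (hb : |b| ≤ L) (hc : |c| ≤ L) (he : |e| < Q)
    {i0 j0 : Fin d → ℕ} (hij : ∀ e, i0 e + j0 e ≤ S)
    (hd : ({i, j, k} : Finset (Lab d)) ≠ {lA i0, lB j0, lC i0 j0}) :
    SameSign (a * X K K' H Q (cen i0 j0) 0 i + b * X K K' H Q (cen i0 j0) 0 j +
        c * X K K' H Q (cen i0 j0) 0 k + e)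
      (a * X K K' H Q 0 1 i + b * X K K' H Q 0 1 j + c * X K K' H Q 0 1 k + e) := by
  set B : ℤ := a * Y K K' i + b * Y K K' j + c * Y K K' k with hB
  set D : ℤ := a * P (cen i0 j0) 0 i + b * P (cen i0 j0) 0 j + c * P (cen i0 j0) 0 k with hD
  set D' : ℤ := a * P 0 1 i + b * P 0 1 j + c * P 0 1 k with hD'
  have e1 : a * X K K' H Q (cen i0 j0) 0 i + b * X K K' H Q (cen i0 j0) 0 j +
      c * X K K' H Q (cen i0 j0) 0 k + e = H * B + (Q * D + e) := by
    rw [hB, hD]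
    unfold X
    ring
  have e2 : a * X K K' H Q 0 1 i + b * X K K' H Q 0 1 j + c * X K K' H Q 0 1 k + e =
      H * B + (Q * D' + e) := by
    rw [hB, hD']
    unfold X
    ring
  rw [e1, e2]
  have hQ' : (1 : ℤ) ≤ Q := by exact_mod_cast hQ
  by_cases hB0 : B = 0
  · obtain ⟨h0, h1, h3⟩ := base_zero hK hK' hi hj hk ha hb hc hB0
    rw [hB0, mul_zero, zero_add, zero_add]
    rw [abs_lt] at he
    rcases sign_pert h0 h1 h3 i0 j0 hd with h | ⟨h, h'⟩ | ⟨h, h'⟩
    · rw [← hD, ← hD'] at h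
      rw [h]
      exact ⟨Iff.rfl, Iff.rfl⟩
    · rw [← hD] at h
      rw [← hD'] at h'
      have h4 : (Q : ℤ) ≤ Q * D := by nlinarith
      have h5 : (Q : ℤ) ≤ Q * D' := by nlinarith
      refine ⟨⟨fun _ => by exfalso; linarith, fun _ => by exfalso; linarith⟩,
        ⟨fun h => ?_, fun h => ?_⟩⟩ <;> (exfalso; linarith)
    · rw [← hD] at h
      rw [← hD'] at h'
      have h4 : (Q : ℤ) * D ≤ -Q := by nlinarith
      have h5 : (Q : ℤ) * D' ≤ -Q := by nlinarith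
      refine ⟨⟨fun _ => by linarith, fun _ => by linarith⟩,
        ⟨fun h => ?_, fun h => ?_⟩⟩ <;> (exfalso; linarith)
  · have hH' : ((3 * L * (d * S ^ 2 + 1) + 1) * Q : ℤ) ≤ H := by exact_mod_cast hH
    have hbd : ∀ z : ℤ, |z| ≤ 3 * L * (d * S ^ 2 + 1) → |Q * z + e| < H := by
      intro z hz
      calc |Q * z + e| ≤ |(Q : ℤ) * z| + |e| := abs_add_le _ _
        _ < Q * (3 * L * (d * S ^ 2 + 1)) + Q := by
            rw [abs_mul, Nat.abs_cast]
            have := mul_le_mul_of_nonneg_left hz (by positivity : (0 : ℤ) ≤ Q)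
            linarith
        _ = (3 * L * (d * S ^ 2 + 1) + 1) * Q := by ring
        _ ≤ H := hH'
    refine same_of_base hB0 (hbd D ?_) (hbd D' ?_)
    · have hb1 := fun l hl => P_le (d := d) (S := S) (δ := 0) (by norm_num) (cen_bd hij) (l := l) hl
      have := abs_comb (L := L) (M := d * S ^ 2 + 1) ha hb hc
        (P_nonneg (cc := cen i0 j0) le_rfl i) (by exact_mod_cast hb1 i hi)
        (P_nonneg (cc := cen i0 j0) le_rfl j) (by exact_mod_cast hb1 j hj)
        (P_nonneg (cc := cen i0 j0) le_rfl k) (by exact_mod_cast hb1 k hk)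
      push_cast at this
      exact this
    · have hb1 := fun l hl => P_le (d := d) (S := S) (δ := 1) le_rfl zero_bd (l := l) hl
      have := abs_comb (L := L) (M := d * S ^ 2 + 1) ha hb hc
        (P_nonneg (cc := 0) zero_le_one i) (by exact_mod_cast hb1 i hi)
        (P_nonneg (cc := 0) zero_le_one j) (by exact_mod_cast hb1 j hj)
        (P_nonneg (cc := 0) zero_le_one k) (by exact_mod_cast hb1 k hk)
      push_cast at this
      exact this

theorem Y_inj {K K' : ℤ} {L S : ℕ} (hL : 1 ≤ L) (hK : (3 * L * S : ℤ) < K)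
    (hK' : (3 * L : ℤ) < K') {i j : Lab d} (hi : ∀ e, i.2 e ≤ S) (hj : ∀ e, j.2 e ≤ S)
    (h : Y K K' i = Y K K' j) : i = j := by
  have hL' : (1 : ℤ) ≤ L := by exact_mod_cast hL
  obtain ⟨h0, h1, h3⟩ := base_zero (a := 1) (b := -1) (c := 0) (k := i) hK hK' hi hj hi
    (by rw [abs_one]; exact hL') (by rw [abs_neg, abs_one]; exact hL')
    (by rw [abs_zero]; positivity) (by rw [h]; ring)
  obtain ⟨ci, ui⟩ := i
  obtain ⟨cj, uj⟩ := j
  simp only [tot, mom] at *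
  fin_cases ci <;> fin_cases cj <;> simp at h0 h1 h3 ⊢ <;>
    (funext e; have := h3 e; omega)

theorem X_hi {K K' : ℤ} {S H Q : ℕ} {cc : Fin 3 → Fin d → ℤ} {δ : ℤ} (hδ : 0 ≤ δ) (hδ' : δ ≤ 1)
    (hcc : ∀ X e, 0 ≤ cc X e ∧ cc X e ≤ S) (hH : (d * S ^ 2 + 1 + 1) * Q ≤ H) (hQ : 1 ≤ Q)
    {l : Lab d} (hl : ∀ e, l.2 e ≤ S) :
    X K K' H Q cc δ l / H = Y K K' l ∧ 0 ≤ (Q : ℤ) * P cc δ l ∧ (Q : ℤ) * P cc δ l < H := by
  have h1 := P_nonneg hδ l (cc := cc)
  have h2 := P_le hδ' hcc hl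
  have hQ' : (1 : ℤ) ≤ Q := by exact_mod_cast hQ
  have hH' : (((d : ℤ) * S ^ 2 + 1 + 1) * Q : ℤ) ≤ H := by exact_mod_cast hH
  have h3 : 0 ≤ (Q : ℤ) * P cc δ l := by positivity
  have h4 : (Q : ℤ) * P cc δ l < H := by nlinarith
  refine ⟨?_, h3, h4⟩
  unfold X
  have hHpos : (0 : ℤ) < H := by linarith
  rw [Int.add_comm, Int.add_mul_ediv_left _ _ hHpos.ne', Int.ediv_eq_zero_of_lt h3 h4, zero_add]

theorem X_lo {K K' : ℤ} {H Q : ℕ} (cc : Fin 3 → Fin d → ℤ) (δ : ℤ) (l : Lab d) :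
    X K K' H Q cc δ l % Q = (H * Y K K' l) % Q := by
  unfold X
  rw [Int.add_mul_emod_self_left]

theorem Y_le {L S : ℕ} (hL : 1 ≤ L) {l : Lab d} (hl : ∀ e, l.2 e ≤ S) :
    |Y (3 * L * S + 1) (3 * L + 1) l| ≤ (d + 3 * L + 2) * (3 * L * S + 1) ^ d := by
  have hL' : (1 : ℤ) ≤ L := by exact_mod_cast hL
  set K : ℤ := 3 * L * S + 1 with hK
  have hK1 : 1 ≤ K := by
    have : (0 : ℤ) ≤ 3 * L * S := by positivity
    linarith
  have hSK : (S : ℤ) ≤ K := by
    have : (S : ℤ) ≤ 3 * L * S := by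
      have h1 : (0 : ℤ) ≤ S := by positivity
      nlinarith
    linarith
  have h1 : ∀ e : Fin d, |(sg l.1 * (l.2 e : ℤ)) * K ^ (e : ℕ)| ≤ K ^ d := by
    intro e
    have hsg : |sg l.1| ≤ 1 := by
      generalize l.1 = X
      fin_cases X <;> simp [sg]
    rw [abs_mul, abs_mul, Nat.abs_cast, abs_of_nonneg (by positivity : (0 : ℤ) ≤ K ^ (e : ℕ))]
    have h2 : (l.2 e : ℤ) ≤ K := le_trans (by exact_mod_cast hl e) hSK
    calc |sg l.1| * (l.2 e : ℤ) * K ^ (e : ℕ) ≤ 1 * K * K ^ (e : ℕ) := by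
          refine mul_le_mul_of_nonneg_right ?_ (by positivity)
          exact mul_le_mul hsg h2 (by positivity) (by norm_num)
      _ = K ^ ((e : ℕ) + 1) := by ring
      _ ≤ K ^ d := pow_le_pow_right₀ hK1 e.2
  have h2 : |s1 l.1 + (3 * L + 1) * s2 l.1| ≤ (3 * L + 2 : ℤ) := by
    generalize l.1 = X
    rw [abs_le]
    fin_cases X <;> simp [s1, s2] <;> constructor <;> linarith
  unfold Y
  calc |∑ e, (sg l.1 * (l.2 e : ℤ)) * K ^ (e : ℕ) + (s1 l.1 + (3 * L + 1) * s2 l.1) * K ^ d|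
      ≤ |∑ e, (sg l.1 * (l.2 e : ℤ)) * K ^ (e : ℕ)| +
        |(s1 l.1 + (3 * L + 1) * s2 l.1) * K ^ d| := abs_add_le _ _
    _ ≤ ∑ e : Fin d, K ^ d + (3 * L + 2) * K ^ d := by
        refine add_le_add ((Finset.abs_sum_le_sum_abs _ _).trans
          (Finset.sum_le_sum fun e _ => h1 e)) ?_
        rw [abs_mul, abs_of_nonneg (by positivity : (0 : ℤ) ≤ K ^ d)]
        exact mul_le_mul_of_nonneg_right h2 (by positivity)
    _ = (d + 3 * L + 2) * K ^ d := by
        simp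
        ring

end Family

end Pool.Agent.Q128.LDT
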