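import Mathlib
import Pool.Agent.Q128.LDT.Main

/-!
# Randomized linear decision trees for integer 3SUM: the lower bound with explicit parameters
-/

set_option autoImplicit false

namespace Pool.Agent.Q128.LDT

open Finset

section Lists

variable {n d : ℕ}

/-- The box of labels with coordinates at most `S`. -/
def box (d S : ℕ) : Finset (Lab d) := univ ×ˢ Fintype.piFinset fun _ => range (S + 1)

theorem mem_box {S : ℕ} {l : Lab d} : l ∈ box d S ↔ ∀ e, l.2 e ≤ S := by
  simp [box, Fintype.mem_piFinset]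

theorem card_box (d S : ℕ) : (box d S).card = 3 * (S + 1) ^ d := by
  simp [box, Finset.card_product, Fintype.card_piFinset]

/-- Labels for the positions. -/
theorem exists_lab {S s : ℕ} (hs : 1 ≤ s) (hsS : 2 * s ≤ S) (h1 : 3 * (2 * s) ^ d ≤ n)
    (h2 : n ≤ 3 * (S + 1) ^ d) :
    ∃ lab : Fin n → Lab d, Function.Injective lab ∧ (∀ l e, (lab l).2 e ≤ S) ∧
      ∀ u : Lab d, (∀ e, u.2 e < 2 * s) → ∃ l, lab l = u := by
  have hsub : box d (2 * s - 1) ⊆ box d S := by
    intro l hl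
    rw [mem_box] at hl ⊢
    intro e
    have := hl e
    omega
  obtain ⟨U, hU1, hU2, hU3⟩ := Finset.exists_subsuperset_card_eq hsub
    (n := n) (by rw [card_box, Nat.sub_add_cancel (by omega)]; exact h1)
    (by rw [card_box]; exact h2)
  let e := U.equivFinOfCardEq hU3
  refine ⟨fun l => (e.symm l : Lab d), ?_, ?_, ?_⟩
  · intro l l' h
    exact e.symm.injective (Subtype.ext h)
  · intro l
    exact mem_box.mp (hU2 (e.symm l).2)
  · intro u hu
    have hmem : u ∈ U := hU1 (mem_box.mpr fun e => by have := hu e; omega)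
    exact ⟨e ⟨u, hmem⟩, by simp⟩

/-- The data of the construction. -/
structure Data (n d s S L Q H R : ℕ) where
  /-- the labels -/
  lab : Fin n → Lab d
  inj : Function.Injective lab
  le : ∀ l e, (lab l).2 e ≤ S
  surj : ∀ u : Lab d, (∀ e, u.2 e < 2 * s) → ∃ l, lab l = u
  hL : 1 ≤ L
  hQ : 1 ≤ Q
  hsS : 2 * s ≤ S
  hH : (3 * L * (d * S ^ 2 + 1) + 1) * Q ≤ H
  hR : H * ((d + 3 * L + 2) * (3 * L * S + 1) ^ d + 1) ≤ R

variable {s S L Q H R : ℕ} (W : Data n d s S L Q H R)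

/-- The list. -/
def Data.x (cc : Fin 3 → Fin d → ℤ) (δ : ℤ) : Fin n → ℤ :=
  fun l => X (3 * L * S + 1) (3 * L + 1) H Q cc δ (W.lab l)

include W in
theorem Data.hH' : (d * S ^ 2 + 1 + 1) * Q ≤ H := by
  refine le_trans (Nat.mul_le_mul_right _ ?_) W.hH
  have := W.hL
  nlinarith [Nat.zero_le (d * S ^ 2)]

theorem Data.hi_eq {cc : Fin 3 → Fin d → ℤ} {δ : ℤ} (hδ : 0 ≤ δ) (hδ' : δ ≤ 1)
    (hcc : ∀ X e, 0 ≤ cc X e ∧ cc X e ≤ S) :
    hi H (W.x cc δ) = fun l => Y (3 * L * S + 1) (3 * L + 1) (W.lab l) := by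
  funext l
  exact (X_hi hδ hδ' hcc W.hH' W.hQ (W.le l)).1

theorem Data.lo_eq (cc : Fin 3 → Fin d → ℤ) (δ : ℤ) :
    lo Q (W.x cc δ) = fun l => (H * Y (3 * L * S + 1) (3 * L + 1) (W.lab l)) % Q := by
  funext l
  exact X_lo cc δ (W.lab l)

theorem Data.inst {cc : Fin 3 → Fin d → ℤ} {δ : ℤ} (hδ : 0 ≤ δ) (hδ' : δ ≤ 1)
    (hcc : ∀ X e, 0 ≤ cc X e ∧ cc X e ≤ S) : Inst R (W.x cc δ) := by
  constructor
  · intro l l' h
    have h1 := congrFun (W.hi_eq hδ hδ' hcc) l
    have h2 := congrFun (W.hi_eq hδ hδ' hcc) l'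
    simp only [hi] at h1 h2
    rw [h, h2] at h1
    exact W.inj (Y_inj W.hL (by linarith) (by linarith) (W.le l) (W.le l') h1.symm)
  · intro l
    obtain ⟨-, h1, h2⟩ := X_hi (K := 3 * L * S + 1) (K' := 3 * L + 1) hδ hδ' hcc W.hH' W.hQ (W.le l)
    have h3 := Y_le W.hL (W.le l)
    have hR : ((H * ((d + 3 * L + 2) * (3 * L * S + 1) ^ d + 1) : ℕ) : ℤ) ≤ R := by
      exact_mod_cast W.hR
    push_cast at hR
    refine le_trans ?_ hR
    show |X (3 * L * S + 1) (3 * L + 1) H Q cc δ (W.lab l)| ≤ _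
    unfold X
    calc |(H : ℤ) * Y (3 * L * S + 1) (3 * L + 1) (W.lab l) + Q * P cc δ (W.lab l)|
        ≤ |(H : ℤ) * Y (3 * L * S + 1) (3 * L + 1) (W.lab l)| + |Q * P cc δ (W.lab l)| :=
          abs_add_le _ _
      _ ≤ H * ((d + 3 * L + 2) * (3 * L * S + 1) ^ d) + H := by
          rw [abs_mul, Nat.abs_cast, abs_of_nonneg h1]
          exact add_le_add (mul_le_mul_of_nonneg_left h3 (by positivity)) h2.le
      _ = H * ((d + 3 * L + 2) * (3 * L * S + 1) ^ d + 1) := by ring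

theorem Data.no : ¬ Yes (W.x 0 1) := by
  rintro ⟨i, j, k, -, -, -, h⟩
  have hL' : (1 : ℤ) ≤ L := by exact_mod_cast W.hL
  have hQ' : (1 : ℤ) ≤ Q := by exact_mod_cast W.hQ
  set B : ℤ := Y (3 * L * S + 1) (3 * L + 1) (W.lab i) + Y (3 * L * S + 1) (3 * L + 1) (W.lab j) +
    Y (3 * L * S + 1) (3 * L + 1) (W.lab k) with hB
  set p : ℤ := P 0 1 (W.lab i) + P 0 1 (W.lab j) + P 0 1 (W.lab k) with hp
  have h1 : H * B + Q * p = 0 := by
    rw [← h, hB, hp]
    unfold Data.x X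
    ring
  by_cases hB0 : B = 0
  · obtain ⟨h2, h3, -⟩ := base_zero (K := 3 * L * S + 1) (K' := 3 * L + 1) (L := L) (S := S)
      (a := 1) (b := 1) (c := 1) (by linarith) (by linarith) (W.le i) (W.le j) (W.le k)
      (by rw [abs_one]; exact hL') (by rw [abs_one]; exact hL') (by rw [abs_one]; exact hL')
      (by rw [one_mul, one_mul, one_mul]; exact hB0)
    have h4 : tot (W.lab i) (W.lab j) (W.lab k) 1 1 1 0 + tot (W.lab i) (W.lab j) (W.lab k) 1 1 1 1
        + tot (W.lab i) (W.lab j) (W.lab k) 1 1 1 2 = 3 := by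
      have key : ∀ Z : Fin 3, (if Z = 0 then (1 : ℤ) else 0) + (if Z = 1 then 1 else 0) +
          (if Z = 2 then 1 else 0) = 1 := by
        intro Z
        fin_cases Z <;> simp
      have k1 := key (W.lab i).1
      have k2 := key (W.lab j).1
      have k3 := key (W.lab k).1
      unfold tot
      linarith
    have h5 : tot (W.lab i) (W.lab j) (W.lab k) 1 1 1 2 ≤ p := by
      have key : ∀ l : Lab d, (if l.1 = 2 then (1 : ℤ) else 0) ≤ P 0 1 l := by
        intro l
        unfold P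
        have := sq_nonneg' l.2 ((0 : Fin 3 → Fin d → ℤ) l.1)
        linarith
      have k1 := key (W.lab i)
      have k2 := key (W.lab j)
      have k3 := key (W.lab k)
      unfold tot
      linarith
    have h6 : 1 ≤ p := by linarith
    rw [hB0, mul_zero, zero_add] at h1
    nlinarith
  · have hpb := fun l hl => P_le (d := d) (S := S) (δ := 1) le_rfl zero_bd (l := l) hl
    have hpn := fun l => P_nonneg (d := d) (cc := 0) (δ := 1) zero_le_one l
    have h2 : 0 ≤ p := by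
      have := hpn (W.lab i)
      have := hpn (W.lab j)
      have := hpn (W.lab k)
      linarith
    have h3 : p ≤ 3 * (d * S ^ 2 + 1) := by
      have := hpb (W.lab i) (W.le i)
      have := hpb (W.lab j) (W.le j)
      have := hpb (W.lab k) (W.le k)
      linarith
    have hH' : ((3 * L * (d * S ^ 2 + 1) + 1) * Q : ℤ) ≤ H := by exact_mod_cast W.hH
    have h4 : Q * p < H := by
      have e1 : (0 : ℤ) ≤ d * S ^ 2 + 1 := by positivity
      have e2 : p < 3 * L * (d * S ^ 2 + 1) + 1 := by nlinarith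
      nlinarith
    have h5 : 0 ≤ Q * p := by positivity
    have hHpos : (0 : ℤ) < H := by linarith
    rcases lt_or_gt_of_ne hB0 with h6 | h6
    · nlinarith
    · nlinarith

/-- The position with the label `u`. -/
theorem Data.yes {i0 j0 : Fin d → ℕ} (hi0 : ∀ e, i0 e < s) (hj0 : ∀ e, j0 e < s) :
    Yes (W.x (cen i0 j0) 0) := by
  obtain ⟨i, hi⟩ := W.surj (lA i0) (fun e => by have := hi0 e; simp only [lA]; omega)
  obtain ⟨j, hj⟩ := W.surj (lB j0) (fun e => by have := hj0 e; simp only [lB]; omega)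
  obtain ⟨k, hk⟩ := W.surj (lC i0 j0) (fun e => by
    have := hi0 e
    have := hj0 e
    simp only [lC, Pi.add_apply]
    omega)
  refine ⟨i, j, k, ?_, ?_, ?_, ?_⟩
  · rintro rfl
    rw [hi] at hj
    simp [lA, lB] at hj
  · rintro rfl
    rw [hi] at hk
    simp [lA, lC] at hk
  · rintro rfl
    rw [hj] at hk
    simp [lB, lC] at hk
  · unfold Data.x
    rw [hi, hj, hk]
    have h1 : ∀ K K' : ℤ, Y K K' (lA i0) + Y K K' (lB j0) + Y K K' (lC i0 j0) = 0 := by
      intro K K'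
      have h2 : ∑ e, (sg (lA i0).1 * ((lA i0).2 e : ℤ)) * K ^ (e : ℕ) +
          ∑ e, (sg (lB j0).1 * ((lB j0).2 e : ℤ)) * K ^ (e : ℕ) +
          ∑ e, (sg (lC i0 j0).1 * ((lC i0 j0).2 e : ℤ)) * K ^ (e : ℕ) = 0 := by
        rw [← Finset.sum_add_distrib, ← Finset.sum_add_distrib]
        refine Finset.sum_eq_zero fun e _ => ?_
        simp [sg, lA, lB, lC]
        ring
      unfold Y
      have h3 : (s1 (lA i0).1 + K' * s2 (lA i0).1) + (s1 (lB j0).1 + K' * s2 (lB j0).1) +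
          (s1 (lC i0 j0).1 + K' * s2 (lC i0 j0).1) = 0 := by
        simp [s1, s2, lA, lB, lC]
        ring
      linear_combination h2 + K ^ d * h3
    have h2 : P (cen i0 j0) 0 (lA i0) = 0 := by
      simp [P, sq, lA, cen]
    have h3 : P (cen i0 j0) 0 (lB j0) = 0 := by
      simp [P, sq, lB, cen]
    have h4 : P (cen i0 j0) 0 (lC i0 j0) = 0 := by
      simp [P, sq, lC, cen]
    unfold X
    rw [h2, h3, h4]
    linear_combination (H : ℤ) * h1 (3 * L * S + 1) (3 * L + 1)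

/-- The test `τ` uses the three entries of the solution number `t`. -/
def Data.hit (t : (Fin d → Fin s) × (Fin d → Fin s)) (τ : Tst n) : Prop :=
  ({W.lab τ.i, W.lab τ.j, W.lab τ.k} : Finset (Lab d)) =
    {lA fun e => (t.1 e : ℕ), lB fun e => (t.2 e : ℕ), lC (fun e => (t.1 e : ℕ)) fun e => t.2 e}

theorem Data.hit_unique (τ : Tst n) (t t' : (Fin d → Fin s) × (Fin d → Fin s))
    (h : W.hit t τ) (h' : W.hit t' τ) : t = t' := by
  unfold Data.hit at h h'
  rw [h] at h'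
  have h1 : (lA fun e => (t.1 e : ℕ)) ∈ ({lA fun e => (t'.1 e : ℕ), lB fun e => (t'.2 e : ℕ),
      lC (fun e => (t'.1 e : ℕ)) fun e => t'.2 e} : Finset (Lab d)) := by
    rw [← h']
    simp
  have h2 : (lB fun e => (t.2 e : ℕ)) ∈ ({lA fun e => (t'.1 e : ℕ), lB fun e => (t'.2 e : ℕ),
      lC (fun e => (t'.1 e : ℕ)) fun e => t'.2 e} : Finset (Lab d)) := by
    rw [← h']
    simp
  simp [lA, lB, lC] at h1 h2
  refine Prod.ext (funext fun e => ?_) (funext fun e => ?_)
  · exact Fin.ext (congrFun h1 e)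
  · exact Fin.ext (congrFun h2 e)

/-- The list with the solution number `t`. -/
def Data.y (t : (Fin d → Fin s) × (Fin d → Fin s)) : Fin n → ℤ :=
  W.x (cen (fun e => (t.1 e : ℕ)) fun e => t.2 e) 0

include W in
theorem Data.bd (t : (Fin d → Fin s) × (Fin d → Fin s)) : ∀ e, (t.1 e : ℕ) + (t.2 e : ℕ) ≤ S := by
  intro e
  have := (t.1 e).2
  have := (t.2 e).2
  have := W.hsS
  omega

theorem Data.y_inst (t : (Fin d → Fin s) × (Fin d → Fin s)) : Inst R (W.y t) :=
  W.inst le_rfl zero_le_one (cen_bd (W.bd t))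

theorem Data.y_yes (t : (Fin d → Fin s) × (Fin d → Fin s)) : Yes (W.y t) :=
  W.yes (fun e => (t.1 e).2) fun e => (t.2 e).2

theorem Data.y_hi (t : (Fin d → Fin s) × (Fin d → Fin s)) : hi H (W.y t) = hi H (W.x 0 1) := by
  rw [W.hi_eq zero_le_one le_rfl zero_bd]
  exact W.hi_eq le_rfl zero_le_one (cen_bd (W.bd t))

theorem Data.y_lo (t : (Fin d → Fin s) × (Fin d → Fin s)) : lo Q (W.y t) = lo Q (W.x 0 1) := by
  rw [W.lo_eq]
  exact W.lo_eq _ _

theorem Data.same (t : (Fin d → Fin s) × (Fin d → Fin s)) (τ : Tst n) (hτ : τ.Small L Q)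
    (h : ¬ W.hit t τ) : SameSign (τ.val (W.y t)) (τ.val (W.x 0 1)) := by
  obtain ⟨ha, hb, hc, he⟩ := hτ
  exact sign_inv (by linarith) (by linarith) W.hQ W.hH (W.le _) (W.le _) (W.le _) ha hb hc he
    (W.bd t) h

open Classical in
/-- Certificates. -/
theorem Data.cert {m : ℕ} (hm : m < (s ^ d) ^ 2) (τ : Fin m → Tst n)
    (hτ : ∀ r, (τ r).Small L Q) : ∃ y : Fin n → ℤ, Inst R y ∧ Yes y ∧ hi H y = hi H (W.x 0 1) ∧
      lo Q y = lo Q (W.x 0 1) ∧ ∀ r, SameSign ((τ r).val y) ((τ r).val (W.x 0 1)) := by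
  have hex : ∃ t : (Fin d → Fin s) × (Fin d → Fin s), ∀ r, ¬ W.hit t (τ r) := by
    by_contra hcon
    push Not at hcon
    choose f hf using hcon
    have hinj : Function.Injective f := by
      intro t t' h
      have h1 := hf t
      rw [h] at h1
      exact W.hit_unique _ t t' h1 (hf t')
    have h2 := Fintype.card_le_of_injective f hinj
    simp at h2
    have : (s ^ d) ^ 2 = s ^ d * s ^ d := by ring
    omega
  obtain ⟨t, ht⟩ := hex
  exact ⟨W.y t, W.y_inst t, W.y_yes t, W.y_hi t, W.y_lo t, fun r => W.same t _ (hτ r) (ht r)⟩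

open Classical in
/-- Algorithms. -/
theorem Data.alg {Ω : Type} [Fintype Ω] (w : Ω → ℝ) (hw : ∀ ω, 0 ≤ w ω) (hw1 : ∑ ω, w ω = 1)
    (A : Ω → (Fin n → ℤ) → (Fin n → ℤ) → DT n) (hA : ∀ ω p q, (A ω p q).Small L Q)
    (hc : ∀ y : Fin n → ℤ, Inst R y →
      2 / 3 ≤ ∑ ω with ((A ω (hi H y) (lo Q y)).run y = true ↔ Yes y), w ω) :
    ((s ^ d) ^ 2 : ℝ) / 3 ≤
      ∑ ω, w ω * ((A ω (hi H (W.x 0 1)) (lo Q (W.x 0 1))).cost (W.x 0 1) : ℝ) := by
  obtain ⟨B, hB⟩ : ∃ B : Ω → DT n, B = fun ω => A ω (hi H (W.x 0 1)) (lo Q (W.x 0 1)) := ⟨_, rfl⟩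
  have hBs : ∀ ω, (B ω).Small L Q := fun ω => by rw [hB]; exact hA _ _ _
  have h1 : 2 / 3 ≤ ∑ ω with ((B ω).run (W.x 0 1) = false), w ω := by
    have h := hc _ (W.inst zero_le_one le_rfl zero_bd)
    refine h.trans (le_of_eq (Finset.sum_congr ?_ fun _ _ => rfl))
    ext ω
    simp only [mem_filter, mem_univ, true_and, hB, W.no, iff_false, Bool.not_eq_true]
  have h2 : ∀ t, 2 / 3 ≤ ∑ ω with ((B ω).run (W.y t) = true), w ω := by
    intro t
    have h := hc _ (W.y_inst t)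
    refine h.trans (le_of_eq (Finset.sum_congr ?_ fun _ _ => rfl))
    ext ω
    simp only [mem_filter, mem_univ, true_and, hB, W.y_yes, iff_true, W.y_hi, W.y_lo]
  have h3 : ∀ t, 1 / 3 ≤ ∑ ω with ((B ω).sees (W.x 0 1) (W.hit t)), w ω := by
    intro t
    have e1 : ∑ ω with ((B ω).run (W.x 0 1) = false), w ω +
        ∑ ω with ((B ω).run (W.y t) = true), w ω ≤
        ∑ ω with ((B ω).sees (W.x 0 1) (W.hit t)), w ω + ∑ ω, w ω := by
      rw [Finset.sum_filter, Finset.sum_filter, Finset.sum_filter, ← Finset.sum_add_distrib,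
        ← Finset.sum_add_distrib]
      refine Finset.sum_le_sum fun ω _ => ?_
      have h4 := hw ω
      by_cases hs : (B ω).sees (W.x 0 1) (W.hit t)
      · rw [if_pos hs]
        split_ifs <;> linarith
      · rw [if_neg hs]
        have h5 := run_eq (x := W.x 0 1) (x' := W.y t) (D := W.hit t) (W.same t) (B ω) (hBs ω) hs
        rw [h5]
        by_cases h6 : (B ω).run (W.x 0 1) = false
        · rw [if_pos h6, if_neg (by rw [h6]; simp)]
          linarith
        · rw [if_neg h6]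
          split_ifs <;> linarith
    rw [hw1] at e1
    have := h2 t
    linarith
  have h4 : (Fintype.card ((Fin d → Fin s) × (Fin d → Fin s)) : ℝ) * (1 / 3) ≤
      ∑ ω, w ω * ((B ω).cost (W.x 0 1) : ℝ) := by
    calc (Fintype.card ((Fin d → Fin s) × (Fin d → Fin s)) : ℝ) * (1 / 3)
        = ∑ t : (Fin d → Fin s) × (Fin d → Fin s), (1 / 3 : ℝ) := by
          rw [Finset.sum_const, Finset.card_univ, nsmul_eq_mul]
      _ ≤ ∑ t, ∑ ω with ((B ω).sees (W.x 0 1) (W.hit t)), w ω := Finset.sum_le_sum fun t _ => h3 t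
      _ = ∑ ω, ∑ t, (if (B ω).sees (W.x 0 1) (W.hit t) then w ω else 0) := by
          rw [Finset.sum_comm]
          exact Finset.sum_congr rfl fun t _ => by rw [Finset.sum_filter]
      _ = ∑ ω, w ω * ((univ.filter fun t => (B ω).sees (W.x 0 1) (W.hit t)).card : ℝ) := by
          refine Finset.sum_congr rfl fun ω _ => ?_
          rw [← Finset.sum_filter, Finset.sum_const, nsmul_eq_mul, mul_comm]
      _ ≤ ∑ ω, w ω * ((B ω).cost (W.x 0 1) : ℝ) := by
          refine Finset.sum_le_sum fun ω _ => mul_le_mul_of_nonneg_left ?_ (hw ω)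
          exact_mod_cast count_sees W.hit (fun τ t t' => W.hit_unique τ t t') (W.x 0 1) (B ω)
  rw [hB] at h4
  refine le_trans (le_of_eq ?_) h4
  simp
  ring

end Lists

end Pool.Agent.Q128.LDT
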